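import Pool.Agent.W459.Sq.Exc

/-!
# Assembly
-/

set_option autoImplicit false

namespace Pool.Agent.W459.Sq

theorem t_bound {b t : ℕ} (hb : b ≠ 0) (hnt : 2 * b ^ 2 < t) (ht : IsSquare (2 * b ^ 2 * t)) :
    2 * (b + 1) ^ 2 ≤ t := by
  have hat : IsSquare (2 * t) := by
    obtain ⟨z, hz⟩ := ht
    have h1 : b ^ 2 ∣ z ^ 2 := ⟨2 * t, by rw [sq z, ← hz]; ring⟩
    have h2 : b ∣ z := (Nat.pow_dvd_pow_iff (by norm_num)).1 h1
    obtain ⟨c, rfl⟩ := h2
    refine ⟨c, ?_⟩
    have h3 : b ^ 2 * (2 * t) = b ^ 2 * (c * c) := by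
      have : b ^ 2 * (2 * t) = 2 * b ^ 2 * t := by ring
      rw [this, hz]
      ring
    exact Nat.eq_of_mul_eq_mul_left (by positivity) h3
  obtain ⟨c, hc⟩ := squarefree_sq Nat.prime_two.squarefree (by norm_num) hat
  have hbc : b < c := by
    by_contra hcon
    push Not at hcon
    have := Nat.pow_le_pow_left hcon 2
    omega
  rw [hc]
  exact Nat.mul_le_mul_left 2 (Nat.pow_le_pow_left hbc 2)

theorem bm_of_pell {b M : ℕ} (h : M ^ 2 + 1 = 2 * (2 * b + 1) ^ 2) : ∃ j, bm j = (b, M) := by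
  have hM : 1 ≤ M := by
    rcases Nat.eq_zero_or_pos M with h0 | h0
    · rw [h0] at h
      exfalso
      omega
    · exact h0
  obtain ⟨j, hj⟩ := pell (2 * b + 1) (M : ℤ) (2 * (b : ℤ) + 1) (by exact_mod_cast hM) (by omega)
    (by
      have : ((M ^ 2 + 1 : ℕ) : ℤ) = ((2 * (2 * b + 1) ^ 2 : ℕ) : ℤ) := by rw [h]
      push_cast at this
      linarith) (by push_cast; exact le_rfl)
  refine ⟨j, ?_⟩
  obtain ⟨h1, h2⟩ := bm_eq j
  rw [hj] at h1 h2
  simp only at h1 h2
  apply Prod.ext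
  · simp only
    omega
  · simp only
    omega

theorem all : (∀ n : ℕ, ¬ IsSquare n → ∀ t : ℕ, n < t → IsSquare (n * t) →
      (∃ r s : ℕ, n < r ∧ r < s ∧ s < t ∧ IsSquare (n * r * s)) ∨ n = 8 ∨ n = 392 ∨
        ∃ j, 17 ≤ j ∧ n = 2 * (bm j).1 ^ 2 ∧ Hard j) ∧
    ∀ j, Hard j → j % 21 ∈ ({1, 2, 3, 4, 6, 9, 13, 14, 17, 18, 19} : Finset ℕ) := by
  refine ⟨?_, hard_mod⟩
  intro n hn t hnt ht
  by_cases hex : ∃ b M : ℕ, n = 2 * b ^ 2 ∧ M ^ 2 + 1 = 2 * (2 * b + 1) ^ 2
  · obtain ⟨b, M, hnb, hM⟩ := hex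
    obtain ⟨j, hj⟩ := bm_of_pell hM
    have hb0 : b ≠ 0 := by
      rintro rfl
      apply hn
      rw [hnb]
      exact ⟨0, rfl⟩
    have htb : 2 * (b + 1) ^ 2 ≤ t := by
      rw [hnb] at hnt ht
      exact t_bound hb0 hnt ht
    have hb : (bm j).1 = b := by rw [hj]
    rcases Nat.lt_or_ge j 4 with hj4 | hj4
    · interval_cases j
      · exfalso
        apply hb0
        rw [← hb]
        rfl
      · right
        left
        rw [hnb, ← hb]
        rfl
      · right
        right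
        left
        rw [hnb, ← hb]
        rfl
      · left
        have hb84 : b = 84 := by
          rw [← hb]
          rfl
        rw [hb84] at hnb htb
        refine ⟨14283, 14406, ?_, by norm_num, ?_, 6 * 84 * 69 * 49, ?_⟩
        · rw [hnb]
          norm_num
        · refine lt_of_lt_of_le ?_ htb
          norm_num
        · rw [hnb]
          norm_num
    · by_cases hH : Hard j
      · right
        right
        right
        exact ⟨j, hard_ge j hj4 hH, by rw [hb]; exact hnb, hH⟩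
      · left
        obtain ⟨r, s, h1, h2, h3, h4⟩ := not_hard hj4 hH
        rw [hb] at h1 h3 h4
        rw [← hnb] at h1 h4
        exact ⟨r, s, h1, h2, lt_of_lt_of_le h3 htb, h4⟩
  · left
    exact main n hn t hnt ht hex

end Pool.Agent.W459.Sq
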