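import Pool.Agent.W459.Sq.Core

/-!
# The windows cover everything, except for `p = 2`
-/

set_option autoImplicit false

namespace Pool.Agent.W459.Sq

/-- `a G = (a D - V) ^ 2 - 4 x ^ 2 y ^ 2 (p - a)`. -/
theorem G_eq {p x y a D : ℤ} (he : x ^ 2 - p * y ^ 2 = a ∨ x ^ 2 - p * y ^ 2 = -a) :
    a * G p x y a D = (a * D - (x ^ 2 + p * y ^ 2)) ^ 2 - 4 * x ^ 2 * y ^ 2 * (p - a) := by
  have h : (x ^ 2 - p * y ^ 2) ^ 2 = a ^ 2 := by
    rcases he with he | he <;> rw [he]
    ring
  unfold G
  linear_combination (-1) * h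

theorem St.norm {p f u v x y s c a t : ℤ} (h : St p f u v x y s c a t) :
    x ^ 2 - p * y ^ 2 = a ∨ x ^ 2 - p * y ^ 2 = -a := by
  have hd := h.hd
  rcases h.hs with hs | hs
  · right
    rw [hd, hs]
    ring
  · left
    rw [hd, hs]
    ring

/-- There is a pair with negative quadratic polynomial. -/
def Good (p D : ℤ) : Prop :=
  ∃ x y a : ℤ, 0 < x ∧ 0 < y ∧ 0 < a ∧ (x ^ 2 - p * y ^ 2 = a ∨ x ^ 2 - p * y ^ 2 = -a) ∧
    G p x y a D < 0

theorem good_of {p x y a D : ℤ} (hx : 1 ≤ x) (hy : 1 ≤ y) (ha : 1 ≤ a)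
    (he : x ^ 2 - p * y ^ 2 = a ∨ x ^ 2 - p * y ^ 2 = -a)
    (h : (a * D - (x ^ 2 + p * y ^ 2)) ^ 2 < 4 * x ^ 2 * y ^ 2 * (p - a)) : Good p D := by
  refine ⟨x, y, a, by omega, by omega, by omega, he, ?_⟩
  have h1 := G_eq (D := D) he
  have h2 : a * G p x y a D < 0 := by rw [h1]; linarith
  by_contra hcon
  push Not at hcon
  have := mul_nonneg (by omega : (0 : ℤ) ≤ a) hcon
  omega

/-- The exceptional case: two consecutive norms `1` and `-1`. -/
theorem special {p x y X Y s t : ℤ} (hs : s = 1 ∨ s = -1) (hd : x ^ 2 - p * y ^ 2 = -s)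
    (hp : p = t ^ 2 + 1) (ht : 1 ≤ t) (hx : 1 ≤ x) (hy : 1 ≤ y)
    (hX : X = t * x + p * y) (hY : Y = x + t * y) :
    Good p (x * Y + X * y) ∨ (p = 2 ∧ ∃ M : ℤ, M ^ 2 = 2 * (x * Y + X * y) ^ 2 - 1) := by
  have h1 : (x ^ 2 - p * y ^ 2) ^ 2 = 1 := by
    rw [hd]
    rcases hs with hs | hs <;> rw [hs] <;> ring
  rcases eq_or_lt_of_le ht with ht1 | ht1
  · right
    subst ht1
    have hp2 : p = 2 := by rw [hp]; ring
    refine ⟨hp2, x * X + p * y * Y, ?_⟩
    rw [hX, hY, hp2]
    rw [hp2] at h1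
    linear_combination (-1) * h1
  · left
    have e1 : (X - x) ^ 2 - p * (Y - y) ^ 2 = 2 * (s * t) := by
      rw [hX, hY]
      have : s = -(x ^ 2 - p * y ^ 2) := by linarith
      rw [this, hp]
      ring
    refine ⟨X - x, Y - y, 2 * t, ?_, ?_, by omega, ?_, ?_⟩
    · rw [hX, hp]
      nlinarith
    · rw [hY]
      nlinarith
    · rcases hs with hs | hs
      · left
        rw [e1, hs]
        ring
      · right
        rw [e1, hs]
        ring
    · have h2 : G p (X - x) (Y - y) (2 * t) (x * Y + X * y) =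
          -2 * (t - 2) * ((x * Y + X * y) ^ 2 - 1) - 8 * x * y * (x * Y + X * y) := by
        unfold G
        rw [hX, hY]
        rw [hp] at h1 ⊢
        linear_combination (-4) * h1
      rw [h2]
      have hXp : 1 ≤ X := by
        rw [hX, hp]
        nlinarith
      have hYp : 1 ≤ Y := by
        rw [hY]
        nlinarith
      have hD : 1 ≤ x * Y + X * y := by nlinarith
      have h3 : 0 ≤ (t - 2) * ((x * Y + X * y) ^ 2 - 1) :=
        mul_nonneg (by omega) (by nlinarith)
      have h4 : 0 < x * y * (x * Y + X * y) := by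
        have := mul_pos (mul_pos (by omega : 0 < x) (by omega : 0 < y))
          (by omega : 0 < x * Y + X * y)
        exact this
      nlinarith

theorem inside {x y a p t t' V D : ℤ} (hxy : 0 < x * y)
    (h3 : -(2 * x * y * t) < a * D - V) (h4 : a * D - V < 2 * x * y * t')
    (ht2 : t ^ 2 ≤ p - a) (ht2' : t' ^ 2 ≤ p - a) :
    (a * D - V) ^ 2 < 4 * x ^ 2 * y ^ 2 * (p - a) := by
  have hxy2 : 0 ≤ 4 * (x * y) ^ 2 := by positivity
  have e1 := mul_le_mul_of_nonneg_left ht2 hxy2
  have e2 := mul_le_mul_of_nonneg_left ht2' hxy2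
  have e3 : 4 * x ^ 2 * y ^ 2 * (p - a) = 4 * (x * y) ^ 2 * (p - a) := by ring
  rw [e3]
  rcases le_or_gt 0 (a * D - V) with hs | hs
  · have h5 : (a * D - V) ^ 2 < (2 * x * y * t') ^ 2 := pow_lt_pow_left₀ h4 hs (by norm_num)
    have e4 : (2 * x * y * t') ^ 2 = 4 * (x * y) ^ 2 * t' ^ 2 := by ring
    linarith
  · have h5 : (-(a * D - V)) ^ 2 < (2 * x * y * t) ^ 2 :=
      pow_lt_pow_left₀ (by linarith) (by linarith) (by norm_num)
    have e4 : (2 * x * y * t) ^ 2 = 4 * (x * y) ^ 2 * t ^ 2 := by ring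
    have e5 : (-(a * D - V)) ^ 2 = (a * D - V) ^ 2 := by ring
    linarith

theorem sq_lt_of {a c p t : ℤ} (ha : 1 ≤ a) (hc : 1 < c) (h : a * c = p - t ^ 2) :
    t ^ 2 < p - a := by
  have : a * 2 ≤ a * c := mul_le_mul_of_nonneg_left (by omega) (by omega)
  linarith

theorem sq_le_of {a c p t : ℤ} (ha : 1 ≤ a) (hc : 1 ≤ c) (h : a * c = p - t ^ 2) :
    t ^ 2 ≤ p - a := by
  have : a * 1 ≤ a * c := mul_le_mul_of_nonneg_left hc (by omega)
  linarith

/-- `D` is the common end of two windows. -/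
theorem boundary {p f u v x y s c a t q c' : ℤ} (h : St p f u v x y s c a t)
    (h' : St p f x y (q * x + u) (q * y + v) (-s) a c' (q * a - t)) :
    Good p (x * (q * y + v) + (q * x + u) * y) ∨ (p = 2 ∧ ∃ M : ℤ,
      M ^ 2 = 2 * (x * (q * y + v) + (q * x + u) * y) ^ 2 - 1) := by
  obtain ⟨X, hX0⟩ : ∃ X, X = q * x + u := ⟨_, rfl⟩
  obtain ⟨Y, hY0⟩ : ∃ Y, Y = q * y + v := ⟨_, rfl⟩
  obtain ⟨T, hT⟩ : ∃ T, T = q * a - t := ⟨_, rfl⟩
  rw [← hX0, ← hY0, ← hT] at h'
  rw [← hX0, ← hY0]
  have hx := h.x1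
  have hy := h.y1
  have ha := h.a1
  have hc' := h'.a1
  have ht' := h'.t1
  have hac' := h'.ac
  have hlow := h.low
  have hlow' := h'.low
  have hxy : 0 < x * y := mul_pos (by omega) (by omega)
  have hup : a * (x * Y + X * y) = x ^ 2 + p * y ^ 2 + 2 * x * y * T := by
    rw [hX0, hY0, hT]
    linear_combination hlow
  rcases eq_or_lt_of_le hc' with hc1 | hc1
  · rcases eq_or_lt_of_le ha with ha1 | ha1
    · have hb' := h'.hb
      have he' := h'.he
      have hd := h.hd
      rw [← ha1] at hd hac'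
      rw [← hc1] at hac'
      have hpt : p = T ^ 2 + 1 := by linarith
      have hss : s * s = 1 := by
        rcases h.hs with hs | hs <;> rw [hs] <;> norm_num
      have hX : X = T * x + p * y := by
        have e : (x ^ 2 - p * y ^ 2) * X =
          x * (x * X - p * y * Y) + p * y * (x * Y - X * y) := by ring
        rw [he', hb', hd] at e
        have e2 : (s * s) * X = (s * s) * (T * x + p * y) := by
          linear_combination (-s) * e
        rw [hss, one_mul, one_mul] at e2
        exact e2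
      have hY : Y = x + T * y := by
        have e : (x ^ 2 - p * y ^ 2) * Y =
          x * (x * Y - X * y) + y * (x * X - p * y * Y) := by ring
        rw [he', hb', hd] at e
        have e2 : (s * s) * Y = (s * s) * (x + T * y) := by
          linear_combination (-s) * e
        rw [hss, one_mul, one_mul] at e2
        exact e2
      exact special h.hs (by linarith) hpt ht' hx hy hX hY
    · left
      have hX := h'.x1
      have hY := h'.y1
      apply good_of hX hY hc' h'.norm
      have h3 : c' * (x * Y + X * y) - (X ^ 2 + p * Y ^ 2) = -(2 * X * Y * T) := by linarith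
      rw [h3]
      have h4 : T ^ 2 < p - c' := sq_lt_of hc' ha1 hac'
      have h5 : 0 < 4 * (X * Y) ^ 2 := by
        have := mul_pos (by omega : 0 < X) (by omega : 0 < Y)
        positivity
      have h6 := mul_lt_mul_of_pos_left h4 h5
      have e1 : (-(2 * X * Y * T)) ^ 2 = 4 * (X * Y) ^ 2 * T ^ 2 := by ring
      have e2 : 4 * X ^ 2 * Y ^ 2 * (p - c') = 4 * (X * Y) ^ 2 * (p - c') := by ring
      rw [e1, e2]
      exact h6
  · left
    apply good_of hx hy ha h.norm
    have h3 : a * (x * Y + X * y) - (x ^ 2 + p * y ^ 2) = 2 * x * y * T := by linarith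
    rw [h3]
    have h4 : T ^ 2 < p - a := sq_lt_of ha hc1 (by rw [mul_comm]; exact hac')
    have h5 : 0 < 4 * (x * y) ^ 2 := by positivity
    have h6 := mul_lt_mul_of_pos_left h4 h5
    have e1 : (2 * x * y * T) ^ 2 = 4 * (x * y) ^ 2 * T ^ 2 := by ring
    have e2 : 4 * x ^ 2 * y ^ 2 * (p - a) = 4 * (x * y) ^ 2 * (p - a) := by ring
    rw [e1, e2]
    exact h6

theorem chain {p f : ℤ} (hf : f ^ 2 < p) (hf2 : p < (f + 1) ^ 2) :
    ∀ n : ℕ, ∀ D u v x y s c a t : ℤ, St p f u v x y s c a t → u * y + x * v < D →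
      D - (u * y + x * v) ≤ n →
      Good p D ∨ (p = 2 ∧ ∃ M : ℤ, M ^ 2 = 2 * D ^ 2 - 1) := by
  intro n
  induction n with
  | zero =>
    intro D u v x y s c a t h h1 h2
    exfalso
    push_cast at h2
    linarith
  | succ n ih =>
    intro D u v x y s c a t h h1 h2
    obtain ⟨q, c', hq, hqa, hqa2, h'⟩ := h.next hf hf2
    have hx := h.x1
    have hy := h.y1
    have ha := h.a1
    have hc := h.c1
    have hc' := h'.a1
    have hac := h.ac
    have hac' := h'.ac
    have hlow := h.low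
    have hnext : x * (q * y + v) + (q * x + u) * y = (u * y + x * v) + 2 * q * x * y := by ring
    have hup : a * (x * (q * y + v) + (q * x + u) * y) =
        x ^ 2 + p * y ^ 2 + 2 * x * y * (q * a - t) := by
      rw [hnext]
      linear_combination hlow
    have hxy : 0 < x * y := mul_pos (by omega) (by omega)
    rcases lt_trichotomy D (x * (q * y + v) + (q * x + u) * y) with hlt | heq | hgt
    · left
      apply good_of hx hy ha h.norm
      have h3 : -(2 * x * y * t) < a * D - (x ^ 2 + p * y ^ 2) := by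
        have := mul_lt_mul_of_pos_left h1 (by omega : 0 < a)
        linarith
      have h4 : a * D - (x ^ 2 + p * y ^ 2) < 2 * x * y * (q * a - t) := by
        have := mul_lt_mul_of_pos_left hlt (by omega : 0 < a)
        linarith
      exact inside hxy h3 h4 (sq_le_of ha hc hac)
        (sq_le_of ha hc' (by rw [mul_comm]; exact hac'))
    · rw [heq]
      exact boundary h h'
    · apply ih D x y (q * x + u) (q * y + v) (-s) a c' (q * a - t) h' (by linarith)
      have h5 : 0 < q * (x * y) := mul_pos (by omega) hxy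
      push_cast at h2
      have h6 : 2 * q * x * y = 2 * (q * (x * y)) := by ring
      linarith

end Pool.Agent.W459.Sq
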