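import Mathlib

/-!
# Pairs of integers in short intervals with prescribed square classes

For a positive integer `p` which is not a square and `b ≥ 1` we look for `k, x, y ≥ 1` with
`k x ^ 2` and `k p y ^ 2` strictly between `p b ^ 2` and `p (b + 1) ^ 2`.
-/

set_option autoImplicit false

namespace Pool.Agent.W459.Sq

/-- The quadratic polynomial in `D = 2 b + 1` which has to be negative. -/
def G (p x y a D : ℤ) : ℤ := a * (D ^ 2 + 1) - 2 * D * (x ^ 2 + p * y ^ 2) + 4 * x ^ 2 * y ^ 2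

theorem kex {N1 N2 w a : ℤ} (hN : 0 ≤ N1) (hw : 0 < w) (ha : 0 < a)
    (h : (N1 + w) * (w + a) < N2 * w) : ∃ k : ℤ, 0 < k ∧ N1 < k * w ∧ k * (w + a) < N2 := by
  have h0 := Int.emod_add_mul_ediv N1 w
  have h1 := Int.emod_nonneg N1 hw.ne'
  have h2 := Int.emod_lt_of_pos N1 hw
  have h3 : 0 ≤ N1 / w := Int.ediv_nonneg hN hw.le
  refine ⟨N1 / w + 1, by omega, by nlinarith, ?_⟩
  have h4 : (N1 / w + 1) * w ≤ N1 + w := by nlinarith
  have h5 : (N1 / w + 1) * w * (w + a) ≤ (N1 + w) * (w + a) :=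
    mul_le_mul_of_nonneg_right h4 (by omega)
  have h6 : w * ((N1 / w + 1) * (w + a)) < w * N2 := by nlinarith
  exact lt_of_mul_lt_mul_left h6 hw.le

/-- From the quadratic polynomial to the two integers. -/
theorem window {p b x y a : ℤ} (hp : 0 < p) (hx : 0 < x) (hy : 0 < y)
    (ha : 0 < a) (he : x ^ 2 - p * y ^ 2 = a ∨ x ^ 2 - p * y ^ 2 = -a)
    (hG : G p x y a (2 * b + 1) < 0) :
    ∃ k : ℤ, 0 < k ∧ p * b ^ 2 < k * x ^ 2 ∧ k * x ^ 2 < p * (b + 1) ^ 2 ∧
      p * b ^ 2 < k * (p * y ^ 2) ∧ k * (p * y ^ 2) < p * (b + 1) ^ 2 := by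
  unfold G at hG
  have hx2 : 0 < x ^ 2 := by positivity
  have hy2 : 0 < p * y ^ 2 := by positivity
  have hN : 0 ≤ p * b ^ 2 := by positivity
  rcases he with he | he
  · have hxe : x ^ 2 = p * y ^ 2 + a := by linarith
    obtain ⟨k, hk, h1, h2⟩ := kex (N1 := p * b ^ 2) (N2 := p * (b + 1) ^ 2) (w := p * y ^ 2)
      (a := a) hN hy2 ha (by
        have h3 : p * (a * ((2 * b + 1) ^ 2 + 1) - 2 * (2 * b + 1) * (x ^ 2 + p * y ^ 2) +
          4 * x ^ 2 * y ^ 2) < 0 := by nlinarith
        rw [hxe] at h3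
        nlinarith)
    refine ⟨k, hk, ?_, ?_, h1, ?_⟩
    · rw [hxe]
      nlinarith
    · rw [hxe]
      exact h2
    · nlinarith
  · have hxe : p * y ^ 2 = x ^ 2 + a := by linarith
    obtain ⟨k, hk, h1, h2⟩ := kex (N1 := p * b ^ 2) (N2 := p * (b + 1) ^ 2) (w := x ^ 2)
      (a := a) hN hx2 ha (by
        have h3 : p * (a * ((2 * b + 1) ^ 2 + 1) - 2 * (2 * b + 1) * (x ^ 2 + p * y ^ 2) +
          4 * x ^ 2 * y ^ 2) < 0 := by nlinarith
        have h4 : p * (4 * x ^ 2 * y ^ 2) = 4 * x ^ 2 * (p * y ^ 2) := by ring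
        have h5 : p * (a * ((2 * b + 1) ^ 2 + 1) - 2 * (2 * b + 1) * (x ^ 2 + p * y ^ 2) +
          4 * x ^ 2 * y ^ 2) = p * (a * ((2 * b + 1) ^ 2 + 1)) -
            2 * p * (2 * b + 1) * (x ^ 2 + p * y ^ 2) + p * (4 * x ^ 2 * y ^ 2) := by ring
        rw [h5, h4, hxe] at h3
        nlinarith)
    refine ⟨k, hk, h1, ?_, ?_, ?_⟩
    · nlinarith
    · rw [hxe]
      nlinarith
    · rw [hxe]
      exact h2

/-- Two consecutive steps of the continued fraction of the square root of `p`. -/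
structure St (p f u v x y s c a t : ℤ) : Prop where
  hs : s = 1 ∨ s = -1
  hb : u * y - x * v = s
  hc : u ^ 2 - p * v ^ 2 = s * c
  hd : x ^ 2 - p * y ^ 2 = -(s * a)
  he : u * x - p * v * y = s * t
  c1 : 1 ≤ c
  a1 : 1 ≤ a
  t1 : 1 ≤ t
  tf : t ≤ f
  af : f - t + 1 ≤ a
  fa : a ≤ f + t
  x1 : 1 ≤ x
  y1 : 1 ≤ y
  u1 : 1 ≤ u
  v0 : 0 ≤ v

theorem St.ac {p f u v x y s c a t : ℤ} (h : St p f u v x y s c a t) : a * c = p - t ^ 2 := by
  rcases h.hs with hs | hs
  · have hb := h.hb; have hc := h.hc; have hd := h.hd; have he := h.he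
    rw [hs] at hb hc hd he
    have h1 : c = u ^ 2 - p * v ^ 2 := by linarith
    have h2 : a = -(x ^ 2 - p * y ^ 2) := by linarith
    have h3 : t = u * x - p * v * y := by linarith
    rw [h1, h2, h3]
    have h4 : (u * y - x * v) ^ 2 = 1 := by rw [hb]; ring
    linear_combination p * h4
  · have hb := h.hb; have hc := h.hc; have hd := h.hd; have he := h.he
    rw [hs] at hb hc hd he
    have h1 : c = -(u ^ 2 - p * v ^ 2) := by linarith
    have h2 : a = x ^ 2 - p * y ^ 2 := by linarith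
    have h3 : t = -(u * x - p * v * y) := by linarith
    rw [h1, h2, h3]
    have h4 : (u * y - x * v) ^ 2 = 1 := by rw [hb]; ring
    linear_combination p * h4

/-- The lower end of the window of `(x, y)`. -/
theorem St.low {p f u v x y s c a t : ℤ} (h : St p f u v x y s c a t) :
    a * (u * y + x * v) = x ^ 2 + p * y ^ 2 - 2 * x * y * t := by
  rcases h.hs with hs | hs
  · have hb := h.hb; have hc := h.hc; have hd := h.hd; have he := h.he
    rw [hs] at hb hc hd he
    have h2 : a = -(x ^ 2 - p * y ^ 2) := by linarith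
    have h3 : t = u * x - p * v * y := by linarith
    rw [h2, h3]
    linear_combination (x ^ 2 + p * y ^ 2) * hb
  · have hb := h.hb; have hc := h.hc; have hd := h.hd; have he := h.he
    rw [hs] at hb hc hd he
    have h2 : a = x ^ 2 - p * y ^ 2 := by linarith
    have h3 : t = -(u * x - p * v * y) := by linarith
    rw [h2, h3]
    linear_combination (-(x ^ 2 + p * y ^ 2)) * hb

/-- The next step. -/
theorem St.next {p f u v x y s c a t : ℤ} (hf : f ^ 2 < p) (hf2 : p < (f + 1) ^ 2)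
    (h : St p f u v x y s c a t) :
    ∃ q c', 1 ≤ q ∧ q * a ≤ f + t ∧ f + t < (q + 1) * a ∧
      St p f x y (q * x + u) (q * y + v) (-s) a c' (q * a - t) := by
  have ha := h.a1
  have h0 := Int.emod_add_mul_ediv (f + t) a
  have h1 := Int.emod_nonneg (f + t) (by omega : a ≠ 0)
  have h2 := Int.emod_lt_of_pos (f + t) (by omega : 0 < a)
  obtain ⟨q, hq⟩ : ∃ q, q = (f + t) / a := ⟨_, rfl⟩
  have hq1 : 1 ≤ q := by
    rw [hq]
    have := h.fa
    exact (Int.le_ediv_iff_mul_le (by omega)).2 (by linarith)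
  rw [← hq] at h0
  have hqa : q * a ≤ f + t := by nlinarith
  have hqa2 : f + t < (q + 1) * a := by nlinarith
  have hac := h.ac
  have ht1 := h.t1
  have htf := h.tf
  have hfa := h.fa
  have haf := h.af
  have t1' : 1 ≤ q * a - t := by
    by_cases hle : a ≤ f
    · nlinarith
    · push Not at hle
      nlinarith
  have haft : a ≤ f + (q * a - t) := by
    by_cases hle : a ≤ f
    · linarith
    · nlinarith
  have hc' : a * (c + 2 * q * t - q ^ 2 * a) = p - (q * a - t) ^ 2 := by
    linear_combination hac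
  have hpos : 0 < a * (c + 2 * q * t - q ^ 2 * a) := by
    rw [hc']
    nlinarith
  have hc1 : 1 ≤ c + 2 * q * t - q ^ 2 * a := by
    have := (pos_iff_pos_of_mul_pos hpos).1 (by omega : (0 : ℤ) < a)
    omega
  refine ⟨q, c + 2 * q * t - q ^ 2 * a, hq1, hqa, hqa2, ?_⟩
  have hb := h.hb; have hc := h.hc; have hd := h.hd; have he := h.he
  constructor
  · rcases h.hs with hs | hs
    · right; rw [hs]
    · left; rw [hs]; ring
  · linear_combination (-1) * hb
  · linear_combination hd
  · linear_combination (q ^ 2) * hd + 2 * q * he + hc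
  · linear_combination q * hd + he
  · exact ha
  · exact hc1
  · exact t1'
  · linarith
  · by_contra hlt
    push Not at hlt
    have h3 : a * (c + 2 * q * t - q ^ 2 * a) ≤ (f + (q * a - t)) * (f - (q * a - t)) :=
      mul_le_mul haft (by linarith) (by linarith) (by linarith)
    nlinarith
  · by_contra hlt
    push Not at hlt
    have h3 : (f - (q * a - t) + 1) * (f + (q * a - t) + 1) ≤
        a * (c + 2 * q * t - q ^ 2 * a) :=
      mul_le_mul (by linarith) (by linarith) (by linarith) (by linarith)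
    nlinarith
  · have := h.x1; have := h.u1
    nlinarith
  · have := h.y1; have := h.v0
    nlinarith
  · exact h.x1
  · have := h.y1
    linarith

end Pool.Agent.W459.Sq
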