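import Pool.Agent.W459.Sq.FamU

/-!
# The exceptional family
-/

set_option autoImplicit false

namespace Pool.Agent.W459.Sq

/-- The pairs `(b j, m j)`: `(0, 1), (2, 7), (14, 41), (84, 239), (492, 1393), ...`. They are the
pairs with `m ^ 2 + 1 = 2 (2 b + 1) ^ 2`. -/
def bm : ℕ → ℕ × ℕ
  | 0 => (0, 1)
  | j + 1 => (3 * (bm j).1 + (bm j).2 + 1, 8 * (bm j).1 + 3 * (bm j).2 + 4)

/-- Rows `(e, α, β, R)`. -/
def fams : List (ℤ × ℤ × ℤ × ℤ) :=
  [(7, 1, 10, 13), (7, -1, 10, 11), (7, -17, 26, 3), (17, 7, 26, 33),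
   (17, -7, 26, 24), (17, -31, 50, 11), (17, -73, 106, 5), (23, 7, 34, 45),
   (23, -7, 34, 35), (23, -47, 74, 13), (23, -89, 130, 7), (31, 17, 50, 59),
   (31, -17, 50, 41), (31, -49, 82, 22), (41, 1, 58, 75), (41, -1, 58, 74),
   (41, -119, 178, 18), (47, 23, 74, 92), (47, -23, 74, 64), (47, -79, 130, 32),
   (47, -217, 314, 13), (49, 31, 82, 89), (49, -31, 82, 61), (49, -71, 122, 38),
   (49, -257, 370, 12)]

/-- For no row `(e, α, β, R)` is `α m j + β (2 b j + 1)` congruent modulo `2 e ^ 2` to an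
integer of absolute value at most `R`. -/
def Hard (j : ℕ) : Prop :=
  ∀ f ∈ fams, ∀ ρ : ℤ, |ρ| ≤ f.2.2.2 →
    ¬ (2 * f.1 ^ 2 ∣ f.2.1 * ((bm j).2 : ℤ) + f.2.2.1 * (2 * ((bm j).1 : ℤ) + 1) - ρ)

theorem bm_eq (j : ℕ) : (sMD j).1 = ((bm j).2 : ℤ) ∧ (sMD j).2 = 2 * ((bm j).1 : ℤ) + 1 := by
  induction j with
  | zero => simp [sMD, bm]
  | succ j ih =>
    obtain ⟨h1, h2⟩ := ih
    simp only [sMD, bm]
    rw [h1, h2]
    push_cast
    constructor <;> ring

/-- A row of the list and its two parameters. -/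
def Row (f : ℤ × ℤ × ℤ × ℤ) : Prop :=
  ∃ x0 y0 : ℤ, Num x0 y0 f.1 f.2.2.2 ∧ f.2.1 = e1 x0 y0 ∧ f.2.2.1 = 2 * e2 x0 y0

theorem rows : ∀ f ∈ fams, Row f := by
  unfold fams
  simp only [List.forall_mem_cons, List.not_mem_nil, IsEmpty.forall_iff, implies_true, and_true]
  refine ⟨?_, ?_, ?_, ?_, ?_, ?_, ?_, ?_, ?_, ?_, ?_, ?_, ?_, ?_, ?_, ?_, ?_, ?_, ?_, ?_, ?_, ?_, ?_, ?_, ?_⟩
  · exact ⟨1, 2, by unfold Num e1 e2; norm_num, by unfold e1; norm_num, by unfold e2; norm_num⟩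
  · exact ⟨3, 1, by unfold Num e1 e2; norm_num, by unfold e1; norm_num, by unfold e2; norm_num⟩
  · exact ⟨5, 3, by unfold Num e1 e2; norm_num, by unfold e1; norm_num, by unfold e2; norm_num⟩
  · exact ⟨1, 3, by unfold Num e1 e2; norm_num, by unfold e1; norm_num, by unfold e2; norm_num⟩
  · exact ⟨5, 2, by unfold Num e1 e2; norm_num, by unfold e1; norm_num, by unfold e2; norm_num⟩
  · exact ⟨7, 4, by unfold Num e1 e2; norm_num, by unfold e1; norm_num, by unfold e2; norm_num⟩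
  · exact ⟨9, 7, by unfold Num e1 e2; norm_num, by unfold e1; norm_num, by unfold e2; norm_num⟩
  · exact ⟨5, 1, by unfold Num e1 e2; norm_num, by unfold e1; norm_num, by unfold e2; norm_num⟩
  · exact ⟨3, 4, by unfold Num e1 e2; norm_num, by unfold e1; norm_num, by unfold e2; norm_num⟩
  · exact ⟨7, 6, by unfold Num e1 e2; norm_num, by unfold e1; norm_num, by unfold e2; norm_num⟩
  · exact ⟨11, 7, by unfold Num e1 e2; norm_num, by unfold e1; norm_num, by unfold e2; norm_num⟩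
  · exact ⟨1, 4, by unfold Num e1 e2; norm_num, by unfold e1; norm_num, by unfold e2; norm_num⟩
  · exact ⟨7, 3, by unfold Num e1 e2; norm_num, by unfold e1; norm_num, by unfold e2; norm_num⟩
  · exact ⟨9, 5, by unfold Num e1 e2; norm_num, by unfold e1; norm_num, by unfold e2; norm_num⟩
  · exact ⟨7, 2, by unfold Num e1 e2; norm_num, by unfold e1; norm_num, by unfold e2; norm_num⟩
  · exact ⟨3, 5, by unfold Num e1 e2; norm_num, by unfold e1; norm_num, by unfold e2; norm_num⟩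
  · exact ⟨13, 8, by unfold Num e1 e2; norm_num, by unfold e1; norm_num, by unfold e2; norm_num⟩
  · exact ⟨7, 1, by unfold Num e1 e2; norm_num, by unfold e1; norm_num, by unfold e2; norm_num⟩
  · exact ⟨5, 6, by unfold Num e1 e2; norm_num, by unfold e1; norm_num, by unfold e2; norm_num⟩
  · exact ⟨9, 8, by unfold Num e1 e2; norm_num, by unfold e1; norm_num, by unfold e2; norm_num⟩
  · exact ⟨17, 11, by unfold Num e1 e2; norm_num, by unfold e1; norm_num, by unfold e2; norm_num⟩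
  · exact ⟨1, 5, by unfold Num e1 e2; norm_num, by unfold e1; norm_num, by unfold e2; norm_num⟩
  · exact ⟨9, 4, by unfold Num e1 e2; norm_num, by unfold e1; norm_num, by unfold e2; norm_num⟩
  · exact ⟨11, 6, by unfold Num e1 e2; norm_num, by unfold e1; norm_num, by unfold e2; norm_num⟩
  · exact ⟨17, 13, by unfold Num e1 e2; norm_num, by unfold e1; norm_num, by unfold e2; norm_num⟩

theorem not_hard {j : ℕ} (hj : 4 ≤ j) (h : ¬ Hard j) :
    ∃ r s : ℕ, 2 * (bm j).1 ^ 2 < r ∧ r < s ∧ s < 2 * ((bm j).1 + 1) ^ 2 ∧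
      IsSquare (2 * (bm j).1 ^ 2 * r * s) := by
  unfold Hard at h
  push Not at h
  obtain ⟨f, hf, ρ, hρ, hd⟩ := h
  obtain ⟨x0, y0, hnum, hα, hβ⟩ := rows f hf
  obtain ⟨h1, h2⟩ := bm_eq j
  apply famU hnum hj h2
  refine ⟨ρ, hρ, ?_⟩
  rw [← hα, ← hβ, h1, h2]
  exact hd

theorem v0 : sMD 0 = (1, 1) := rfl

theorem v1 : sMD 1 = (7, 5) := by
  show (3 * (sMD 0).1 + 4 * (sMD 0).2, 2 * (sMD 0).1 + 3 * (sMD 0).2) = _
  rw [v0]
  norm_num

theorem v2 : sMD 2 = (41, 29) := by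
  show (3 * (sMD 1).1 + 4 * (sMD 1).2, 2 * (sMD 1).1 + 3 * (sMD 1).2) = _
  rw [v1]
  norm_num

theorem v3 : sMD 3 = (239, 169) := by
  show (3 * (sMD 2).1 + 4 * (sMD 2).2, 2 * (sMD 2).1 + 3 * (sMD 2).2) = _
  rw [v2]
  norm_num

theorem v4 : sMD 4 = (1393, 985) := by
  show (3 * (sMD 3).1 + 4 * (sMD 3).2, 2 * (sMD 3).1 + 3 * (sMD 3).2) = _
  rw [v3]
  norm_num

theorem v5 : sMD 5 = (8119, 5741) := by
  show (3 * (sMD 4).1 + 4 * (sMD 4).2, 2 * (sMD 4).1 + 3 * (sMD 4).2) = _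
  rw [v4]
  norm_num

theorem v6 : sMD 6 = (47321, 33461) := by
  show (3 * (sMD 5).1 + 4 * (sMD 5).2, 2 * (sMD 5).1 + 3 * (sMD 5).2) = _
  rw [v5]
  norm_num

theorem v7 : sMD 7 = (275807, 195025) := by
  show (3 * (sMD 6).1 + 4 * (sMD 6).2, 2 * (sMD 6).1 + 3 * (sMD 6).2) = _
  rw [v6]
  norm_num

theorem v8 : sMD 8 = (1607521, 1136689) := by
  show (3 * (sMD 7).1 + 4 * (sMD 7).2, 2 * (sMD 7).1 + 3 * (sMD 7).2) = _
  rw [v7]
  norm_num

theorem v9 : sMD 9 = (9369319, 6625109) := by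
  show (3 * (sMD 8).1 + 4 * (sMD 8).2, 2 * (sMD 8).1 + 3 * (sMD 8).2) = _
  rw [v8]
  norm_num

theorem v10 : sMD 10 = (54608393, 38613965) := by
  show (3 * (sMD 9).1 + 4 * (sMD 9).2, 2 * (sMD 9).1 + 3 * (sMD 9).2) = _
  rw [v9]
  norm_num

theorem v11 : sMD 11 = (318281039, 225058681) := by
  show (3 * (sMD 10).1 + 4 * (sMD 10).2, 2 * (sMD 10).1 + 3 * (sMD 10).2) = _
  rw [v10]
  norm_num

theorem v12 : sMD 12 = (1855077841, 1311738121) := by
  show (3 * (sMD 11).1 + 4 * (sMD 11).2, 2 * (sMD 11).1 + 3 * (sMD 11).2) = _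
  rw [v11]
  norm_num

theorem v13 : sMD 13 = (10812186007, 7645370045) := by
  show (3 * (sMD 12).1 + 4 * (sMD 12).2, 2 * (sMD 12).1 + 3 * (sMD 12).2) = _
  rw [v12]
  norm_num

theorem v14 : sMD 14 = (63018038201, 44560482149) := by
  show (3 * (sMD 13).1 + 4 * (sMD 13).2, 2 * (sMD 13).1 + 3 * (sMD 13).2) = _
  rw [v13]
  norm_num

theorem v15 : sMD 15 = (367296043199, 259717522849) := by
  show (3 * (sMD 14).1 + 4 * (sMD 14).2, 2 * (sMD 14).1 + 3 * (sMD 14).2) = _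
  rw [v14]
  norm_num

theorem v16 : sMD 16 = (2140758220993, 1513744654945) := by
  show (3 * (sMD 15).1 + 4 * (sMD 15).2, 2 * (sMD 15).1 + 3 * (sMD 15).2) = _
  rw [v15]
  norm_num

theorem v17 : sMD 17 = (12477253282759, 8822750406821) := by
  show (3 * (sMD 16).1 + 4 * (sMD 16).2, 2 * (sMD 16).1 + 3 * (sMD 16).2) = _
  rw [v16]
  norm_num

theorem v18 : sMD 18 = (72722761475561, 51422757785981) := by
  show (3 * (sMD 17).1 + 4 * (sMD 17).2, 2 * (sMD 17).1 + 3 * (sMD 17).2) = _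
  rw [v17]
  norm_num

theorem v19 : sMD 19 = (423859315570607, 299713796309065) := by
  show (3 * (sMD 18).1 + 4 * (sMD 18).2, 2 * (sMD 18).1 + 3 * (sMD 18).2) = _
  rw [v18]
  norm_num

theorem v20 : sMD 20 = (2470433131948081, 1746860020068409) := by
  show (3 * (sMD 19).1 + 4 * (sMD 19).2, 2 * (sMD 19).1 + 3 * (sMD 19).2) = _
  rw [v19]
  norm_num

theorem v21 : sMD 21 = (14398739476117879, 10181446324101389) := by
  show (3 * (sMD 20).1 + 4 * (sMD 20).2, 2 * (sMD 20).1 + 3 * (sMD 20).2) = _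
  rw [v20]
  norm_num

theorem sMD_succ (j : ℕ) : sMD (j + 1) =
    (3 * (sMD j).1 + 4 * (sMD j).2, 2 * (sMD j).1 + 3 * (sMD j).2) := rfl

theorem per (j : ℕ) : (98 : ℤ) ∣ (sMD (j + 21)).1 - (sMD j).1 ∧
    (98 : ℤ) ∣ (sMD (j + 21)).2 - (sMD j).2 := by
  induction j with
  | zero =>
    rw [Nat.zero_add, v21, v0]
    norm_num
  | succ j ih =>
    obtain ⟨h1, h2⟩ := ih
    have e : j + 1 + 21 = (j + 21) + 1 := by ring
    rw [e, sMD_succ (j + 21), sMD_succ j]
    obtain ⟨A, hA⟩ : ∃ A, A = sMD (j + 21) := ⟨_, rfl⟩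
    obtain ⟨B, hB⟩ : ∃ B, B = sMD j := ⟨_, rfl⟩
    rw [← hA, ← hB] at h1 h2
    rw [← hA, ← hB]
    simp only
    omega

theorem per' (q r : ℕ) : (98 : ℤ) ∣ (sMD (21 * q + r)).1 - (sMD r).1 ∧
    (98 : ℤ) ∣ (sMD (21 * q + r)).2 - (sMD r).2 := by
  induction q with
  | zero => simp
  | succ q ih =>
    have e : 21 * (q + 1) + r = (21 * q + r) + 21 := by ring
    rw [e]
    obtain ⟨h1, h2⟩ := per (21 * q + r)
    obtain ⟨i1, i2⟩ := ih
    constructor
    · have := dvd_add h1 i1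
      simpa using this
    · have := dvd_add h2 i2
      simpa using this

theorem hard_mod (j : ℕ) (h : Hard j) :
    j % 21 ∈ ({1, 2, 3, 4, 6, 9, 13, 14, 17, 18, 19} : Finset ℕ) := by
  obtain ⟨q, r, hr, hj⟩ : ∃ q r, r < 21 ∧ j = 21 * q + r :=
    ⟨j / 21, j % 21, Nat.mod_lt _ (by norm_num), by omega⟩
  have hmod : j % 21 = r := by omega
  rw [hmod]
  obtain ⟨h1, h2⟩ := bm_eq j
  obtain ⟨p1, p2⟩ := per' q r
  rw [← hj, h1] at p1
  rw [← hj, h2] at p2
  have k0 := fun ρ => h (7, 1, 10, 13) (by simp [fams]) ρ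
  have k1 := fun ρ => h (7, -1, 10, 11) (by simp [fams]) ρ
  have k2 := fun ρ => h (7, -17, 26, 3) (by simp [fams]) ρ
  simp only at k0 k1 k2
  interval_cases r
  · exfalso
    refine k0 (11) (by norm_num) ?_
    rw [v0] at p1 p2
    simp only at p1 p2
    omega
  · decide
  · decide
  · decide
  · decide
  · exfalso
    refine k1 (-3) (by norm_num) ?_
    rw [v5] at p1 p2
    simp only at p1 p2
    omega
  · decide
  · exfalso
    refine k0 (-13) (by norm_num) ?_
    rw [v7] at p1 p2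
    simp only at p1 p2
    omega
  · exfalso
    refine k0 (-5) (by norm_num) ?_
    rw [v8] at p1 p2
    simp only at p1 p2
    omega
  · decide
  · exfalso
    refine k0 (1) (by norm_num) ?_
    rw [v10] at p1 p2
    simp only at p1 p2
    omega
  · exfalso
    refine k2 (1) (by norm_num) ?_
    rw [v11] at p1 p2
    simp only at p1 p2
    omega
  · exfalso
    refine k1 (-5) (by norm_num) ?_
    rw [v12] at p1 p2
    simp only at p1 p2
    omega
  · decide
  · decide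
  · exfalso
    refine k0 (-3) (by norm_num) ?_
    rw [v15] at p1 p2
    simp only at p1 p2
    omega
  · exfalso
    refine k2 (-3) (by norm_num) ?_
    rw [v16] at p1 p2
    simp only at p1 p2
    omega
  · decide
  · decide
  · decide
  · exfalso
    refine k0 (9) (by norm_num) ?_
    rw [v20] at p1 p2
    simp only at p1 p2
    omega

theorem hard_ge (j : ℕ) (hj : 4 ≤ j) (h : Hard j) : 17 ≤ j := by
  by_contra hcon
  have hj2 : j ≤ 16 := by omega
  obtain ⟨h1, h2⟩ := bm_eq j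
  interval_cases j
  · rw [v4] at h1 h2
    simp only at h1 h2
    have h3 := h (23, -47, 74, 13) (by simp [fams]) (13) (by norm_num)
    rw [← h1, ← h2] at h3
    exact h3 (by norm_num)
  · rw [v5] at h1 h2
    simp only at h1 h2
    have h3 := h (7, -1, 10, 11) (by simp [fams]) (-3) (by norm_num)
    rw [← h1, ← h2] at h3
    exact h3 (by norm_num)
  · rw [v6] at h1 h2
    simp only at h1 h2
    have h3 := h (31, 17, 50, 59) (by simp [fams]) (49) (by norm_num)
    rw [← h1, ← h2] at h3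
    exact h3 (by norm_num)
  · rw [v7] at h1 h2
    simp only at h1 h2
    have h3 := h (7, 1, 10, 13) (by simp [fams]) (-13) (by norm_num)
    rw [← h1, ← h2] at h3
    exact h3 (by norm_num)
  · rw [v8] at h1 h2
    simp only at h1 h2
    have h3 := h (7, 1, 10, 13) (by simp [fams]) (-5) (by norm_num)
    rw [← h1, ← h2] at h3
    exact h3 (by norm_num)
  · rw [v9] at h1 h2
    simp only at h1 h2
    have h3 := h (17, -7, 26, 24) (by simp [fams]) (13) (by norm_num)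
    rw [← h1, ← h2] at h3
    exact h3 (by norm_num)
  · rw [v10] at h1 h2
    simp only at h1 h2
    have h3 := h (7, 1, 10, 13) (by simp [fams]) (1) (by norm_num)
    rw [← h1, ← h2] at h3
    exact h3 (by norm_num)
  · rw [v11] at h1 h2
    simp only at h1 h2
    have h3 := h (7, -17, 26, 3) (by simp [fams]) (1) (by norm_num)
    rw [← h1, ← h2] at h3
    exact h3 (by norm_num)
  · rw [v12] at h1 h2
    simp only at h1 h2
    have h3 := h (7, -1, 10, 11) (by simp [fams]) (-5) (by norm_num)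
    rw [← h1, ← h2] at h3
    exact h3 (by norm_num)
  · rw [v13] at h1 h2
    simp only at h1 h2
    have h3 := h (17, -7, 26, 24) (by simp [fams]) (21) (by norm_num)
    rw [← h1, ← h2] at h3
    exact h3 (by norm_num)
  · rw [v14] at h1 h2
    simp only at h1 h2
    have h3 := h (31, 17, 50, 59) (by simp [fams]) (33) (by norm_num)
    rw [← h1, ← h2] at h3
    exact h3 (by norm_num)
  · rw [v15] at h1 h2
    simp only at h1 h2
    have h3 := h (7, 1, 10, 13) (by simp [fams]) (-3) (by norm_num)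
    rw [← h1, ← h2] at h3
    exact h3 (by norm_num)
  · rw [v16] at h1 h2
    simp only at h1 h2
    have h3 := h (7, -17, 26, 3) (by simp [fams]) (-3) (by norm_num)
    rw [← h1, ← h2] at h3
    exact h3 (by norm_num)

end Pool.Agent.W459.Sq
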