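import Pool.Agent.W459.Sq.Main

/-!
# The remaining family: `n = 2 b ^ 2`, where `2 (2 b + 1) ^ 2 - 1` is a square
-/

set_option autoImplicit false

namespace Pool.Agent.W459.Sq

/-- `sM j + sD j √2 = (1 + √2) ^ (2 j + 1)`. -/
def sMD : ℕ → ℤ × ℤ
  | 0 => (1, 1)
  | j + 1 => (3 * (sMD j).1 + 4 * (sMD j).2, 2 * (sMD j).1 + 3 * (sMD j).2)

/-- `h + g √2 = (1 + √2) ^ j`. -/
def hg : ℕ → ℤ × ℤ
  | 0 => (1, 0)
  | j + 1 => ((hg j).1 + 2 * (hg j).2, (hg j).1 + (hg j).2)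

theorem hg_norm (j : ℕ) : (hg j).1 ^ 2 - 2 * (hg j).2 ^ 2 = 1 ∨
    (hg j).1 ^ 2 - 2 * (hg j).2 ^ 2 = -1 := by
  induction j with
  | zero => left; simp [hg]
  | succ j ih =>
    have e : (hg (j + 1)).1 ^ 2 - 2 * (hg (j + 1)).2 ^ 2 =
        -((hg j).1 ^ 2 - 2 * (hg j).2 ^ 2) := by
      simp only [hg]
      ring
    rw [e]
    rcases ih with h | h
    · right; rw [h]
    · left; rw [h]; ring

theorem sMD_eq (j : ℕ) :
    (sMD j).1 = (hg j).1 ^ 2 + 2 * (hg j).2 ^ 2 + 4 * (hg j).1 * (hg j).2 ∧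
    (sMD j).2 = (hg j).1 ^ 2 + 2 * (hg j).2 ^ 2 + 2 * (hg j).1 * (hg j).2 := by
  induction j with
  | zero => simp [sMD, hg]
  | succ j ih =>
    obtain ⟨h1, h2⟩ := ih
    simp only [sMD, hg]
    rw [h1, h2]
    constructor <;> ring

theorem sMD_norm (j : ℕ) : (sMD j).1 ^ 2 = 2 * (sMD j).2 ^ 2 - 1 := by
  induction j with
  | zero => simp [sMD]
  | succ j ih =>
    simp only [sMD]
    linear_combination ih

theorem sMD_pos (j : ℕ) : 1 ≤ (sMD j).1 ∧ 1 ≤ (sMD j).2 := by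
  induction j with
  | zero => simp [sMD]
  | succ j ih =>
    simp only [sMD]
    omega

/-- Every solution of `M ^ 2 = 2 D ^ 2 - 1` is in the sequence. -/
theorem pell : ∀ n : ℕ, ∀ M D : ℤ, 1 ≤ M → 1 ≤ D → M ^ 2 = 2 * D ^ 2 - 1 → D ≤ n →
    ∃ j, sMD j = (M, D) := by
  intro n
  induction n with
  | zero =>
    intro M D _ hD _ h
    exfalso
    push_cast at h
    omega
  | succ n ih =>
    intro M D hM hD h hn
    rcases eq_or_lt_of_le hD with h1 | h1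
    · refine ⟨0, ?_⟩
      have hM1 : M = 1 := by
        rw [← h1] at h
        nlinarith
      rw [← h1, hM1]
      rfl
    · have hlow : 4 * D + 1 ≤ 3 * M := by
        by_contra hcon
        have h2 : 3 * M ≤ 4 * D := by omega
        have h3 : (3 * M) ^ 2 ≤ (4 * D) ^ 2 := pow_le_pow_left₀ (by omega) h2 2
        have h4 : D ≤ 2 := by nlinarith
        have h5 : D = 2 := by omega
        rw [h5] at h
        have h6 : M ≤ 2 := by nlinarith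
        interval_cases M <;> omega
      have hup : 2 * M + 1 ≤ 3 * D := by
        by_contra hcon
        have h2 : 3 * D ≤ 2 * M := by omega
        have h3 : (3 * D) ^ 2 ≤ (2 * M) ^ 2 := pow_le_pow_left₀ (by omega) h2 2
        nlinarith
      have hMD : D < M := by
        by_contra hcon
        have h2 : M ≤ D := by omega
        have h3 : M ^ 2 ≤ D ^ 2 := pow_le_pow_left₀ (by omega) h2 2
        nlinarith
      obtain ⟨j, hj⟩ := ih (3 * M - 4 * D) (3 * D - 2 * M) (by omega) (by omega)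
        (by linear_combination h) (by push_cast at hn; omega)
      refine ⟨j + 1, ?_⟩
      simp only [sMD, hj]
      apply Prod.ext
      · simp only
        ring
      · simp only
        ring

/-- The criterion for an integer `k`. -/
theorem crit {b x y k D : ℤ} (hD : D = 2 * b + 1) (hk : 0 < k)
    (h : |k * (x ^ 2 + 2 * y ^ 2) - (D ^ 2 + 1)| + k * |x ^ 2 - 2 * y ^ 2| < 2 * D) :
    2 * b ^ 2 < k * x ^ 2 ∧ k * x ^ 2 < 2 * (b + 1) ^ 2 ∧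
      2 * b ^ 2 < k * (2 * y ^ 2) ∧ k * (2 * y ^ 2) < 2 * (b + 1) ^ 2 := by
  have h1 := abs_le.1 (le_refl |k * (x ^ 2 + 2 * y ^ 2) - (D ^ 2 + 1)|)
  have h2 := abs_le.1 (le_refl |x ^ 2 - 2 * y ^ 2|)
  have h3 := mul_le_mul_of_nonneg_left h2.1 hk.le
  have h4 := mul_le_mul_of_nonneg_left h2.2 hk.le
  subst hD
  refine ⟨?_, ?_, ?_, ?_⟩ <;> nlinarith

/-- The coefficients of the linear forms. -/
def e1 (x0 y0 : ℤ) : ℤ := x0 ^ 2 + 2 * y0 ^ 2 - 4 * x0 * y0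

def e2 (x0 y0 : ℤ) : ℤ := x0 ^ 2 + 2 * y0 ^ 2 - 2 * x0 * y0

/-- The family of solutions belonging to `x0 + y0 √2`. -/
theorem fam (j : ℕ) (b x0 y0 e ρ k : ℤ) (hb : (sMD j).2 = 2 * b + 1) (he : 0 < e)
    (hN : x0 ^ 2 - 2 * y0 ^ 2 = e ∨ x0 ^ 2 - 2 * y0 ^ 2 = -e) (hk : 0 < k)
    (hU : 2 * e ^ 2 * k = e1 x0 y0 * (sMD j).1 + 2 * e2 x0 y0 * (sMD j).2 - ρ)
    (hI : |e1 x0 y0 ^ 2 - 2 * e ^ 2 -
        ρ * (2 * e2 x0 y0 * (sMD j).2 - e1 x0 y0 * (sMD j).1)| +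
      e * (e1 x0 y0 * (sMD j).1 + 2 * e2 x0 y0 * (sMD j).2 - ρ) < 4 * e ^ 2 * (sMD j).2) :
    ∃ x y : ℤ, 2 * b ^ 2 < k * x ^ 2 ∧ k * x ^ 2 < 2 * (b + 1) ^ 2 ∧
      2 * b ^ 2 < k * (2 * y ^ 2) ∧ k * (2 * y ^ 2) < 2 * (b + 1) ^ 2 ∧
        x ^ 2 ≠ 2 * y ^ 2 := by
  obtain ⟨hM, hD⟩ := sMD_eq j
  have hn := sMD_norm j
  have hnorm := hg_norm j
  obtain ⟨M, hM0⟩ : ∃ M, M = (sMD j).1 := ⟨_, rfl⟩
  obtain ⟨D, hD0⟩ : ∃ D, D = (sMD j).2 := ⟨_, rfl⟩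
  obtain ⟨h, hh⟩ : ∃ h, h = (hg j).1 := ⟨_, rfl⟩
  obtain ⟨g, hg'⟩ : ∃ g, g = (hg j).2 := ⟨_, rfl⟩
  rw [← hM0, ← hD0] at hU hI hn
  rw [← hM0, ← hh, ← hg'] at hM
  rw [← hD0, ← hh, ← hg'] at hD
  rw [← hD0] at hb
  rw [← hh, ← hg'] at hnorm
  have hX : (x0 * h + 2 * y0 * g) ^ 2 + 2 * (x0 * g + y0 * h) ^ 2 =
      2 * e2 x0 y0 * D - e1 x0 y0 * M := by
    rw [hM, hD]
    unfold e1 e2
    ring
  have hE : |(x0 * h + 2 * y0 * g) ^ 2 - 2 * (x0 * g + y0 * h) ^ 2| = e := by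
    have e3 : (x0 * h + 2 * y0 * g) ^ 2 - 2 * (x0 * g + y0 * h) ^ 2 =
        (x0 ^ 2 - 2 * y0 ^ 2) * (h ^ 2 - 2 * g ^ 2) := by ring
    rw [e3]
    rcases hN with hN | hN <;> rcases hnorm with hnorm | hnorm <;> rw [hN, hnorm]
    · rw [mul_one, abs_of_pos he]
    · rw [mul_neg_one, abs_neg, abs_of_pos he]
    · rw [mul_one, abs_neg, abs_of_pos he]
    · rw [neg_mul_neg, mul_one, abs_of_pos he]
  have hee : 2 * e2 x0 y0 ^ 2 - e1 x0 y0 ^ 2 = e ^ 2 := by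
    have : (x0 ^ 2 - 2 * y0 ^ 2) ^ 2 = e ^ 2 := by
      rcases hN with hN | hN <;> rw [hN]
      ring
    unfold e1 e2
    linear_combination this
  have hkX : 2 * e ^ 2 * (k * (2 * e2 x0 y0 * D - e1 x0 y0 * M) - (D ^ 2 + 1)) =
      e1 x0 y0 ^ 2 - 2 * e ^ 2 - ρ * (2 * e2 x0 y0 * D - e1 x0 y0 * M) := by
    linear_combination (2 * e2 x0 y0 * D - e1 x0 y0 * M) * hU - e1 x0 y0 ^ 2 * hn +
      2 * D ^ 2 * hee
  have he2 : 0 < 2 * e ^ 2 := by positivity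
  have key : |k * ((x0 * h + 2 * y0 * g) ^ 2 + 2 * (x0 * g + y0 * h) ^ 2) - (D ^ 2 + 1)| +
      k * |(x0 * h + 2 * y0 * g) ^ 2 - 2 * (x0 * g + y0 * h) ^ 2| < 2 * D := by
    rw [hX, hE]
    have h1 : 2 * e ^ 2 * |k * (2 * e2 x0 y0 * D - e1 x0 y0 * M) - (D ^ 2 + 1)| =
        |e1 x0 y0 ^ 2 - 2 * e ^ 2 - ρ * (2 * e2 x0 y0 * D - e1 x0 y0 * M)| := by
      rw [← hkX, abs_mul, abs_of_pos he2]
    have h2 : 2 * e ^ 2 * (|k * (2 * e2 x0 y0 * D - e1 x0 y0 * M) - (D ^ 2 + 1)| + k * e) <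
        2 * e ^ 2 * (2 * D) := by
      have h3 : 2 * e ^ 2 * (k * e) = e * (2 * e ^ 2 * k) := by ring
      rw [mul_add, h1, h3, hU]
      linarith
    exact lt_of_mul_lt_mul_left h2 he2.le
  obtain ⟨c1, c2, c3, c4⟩ := crit hb hk key
  refine ⟨_, _, c1, c2, c3, c4, ?_⟩
  intro heq
  rw [heq, sub_self, abs_zero] at hE
  omega

/-- From the family to the two integers. -/
theorem two_ints' {b : ℕ} {k : ℤ} (hk : 0 < k)
    (h : ∃ x y : ℤ, 2 * (b : ℤ) ^ 2 < k * x ^ 2 ∧ k * x ^ 2 < 2 * ((b : ℤ) + 1) ^ 2 ∧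
      2 * (b : ℤ) ^ 2 < k * (2 * y ^ 2) ∧ k * (2 * y ^ 2) < 2 * ((b : ℤ) + 1) ^ 2 ∧
        x ^ 2 ≠ 2 * y ^ 2) :
    ∃ r s : ℕ, 2 * b ^ 2 < r ∧ r < s ∧ s < 2 * (b + 1) ^ 2 ∧ IsSquare (2 * b ^ 2 * r * s) := by
  obtain ⟨x, y, h1, h2, h3, h4, hne⟩ := h
  rw [← Int.natAbs_sq x] at h1 h2 hne
  rw [← Int.natAbs_sq y] at h3 h4 hne
  lift k to ℕ using hk.le
  have h1' : 2 * b ^ 2 < k * x.natAbs ^ 2 := by exact_mod_cast h1
  have h2' : k * x.natAbs ^ 2 < 2 * (b + 1) ^ 2 := by exact_mod_cast h2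
  have h3' : 2 * b ^ 2 < k * (2 * y.natAbs ^ 2) := by exact_mod_cast h3
  have h4' : k * (2 * y.natAbs ^ 2) < 2 * (b + 1) ^ 2 := by exact_mod_cast h4
  have hk' : 0 < k := by exact_mod_cast hk
  have hne' : k * x.natAbs ^ 2 ≠ k * (2 * y.natAbs ^ 2) := by
    intro h
    apply hne
    have := Nat.eq_of_mul_eq_mul_left hk' h
    exact_mod_cast this
  rcases lt_or_gt_of_ne hne' with hlt | hlt
  · exact ⟨k * x.natAbs ^ 2, k * (2 * y.natAbs ^ 2), h1', hlt, h4',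
      2 * b * k * x.natAbs * y.natAbs, by ring⟩
  · exact ⟨k * (2 * y.natAbs ^ 2), k * x.natAbs ^ 2, h3', hlt, h2',
      2 * b * k * x.natAbs * y.natAbs, by ring⟩

end Pool.Agent.W459.Sq
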