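import Pool.Agent.W459.Sq.Fam

/-!
# The families of solutions, uniformly
-/

set_option autoImplicit false

namespace Pool.Agent.W459.Sq

theorem sMD_big (j : ℕ) (hj : 4 ≤ j) : 985 ≤ (sMD j).2 := by
  induction j, hj using Nat.le_induction with
  | base => simp [sMD]
  | succ j _ ih =>
    have := (sMD_pos j).1
    simp only [sMD]
    omega

theorem sMD_low (j : ℕ) (hj : 4 ≤ j) : 141420 * (sMD j).2 ≤ 100000 * (sMD j).1 := by
  have h1 := sMD_norm j
  have h2 := sMD_big j hj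
  have h3 := (sMD_pos j).1
  by_contra hcon
  push Not at hcon
  have h4 : (100000 * (sMD j).1) ^ 2 < (141420 * (sMD j).2) ^ 2 :=
    pow_lt_pow_left₀ hcon (by omega) (by norm_num)
  nlinarith

theorem sMD_up (j : ℕ) : 100000 * (sMD j).1 ≤ 141422 * (sMD j).2 := by
  have h1 := sMD_norm j
  have h3 := (sMD_pos j).2
  by_contra hcon
  push Not at hcon
  have h4 : (141422 * (sMD j).2) ^ 2 < (100000 * (sMD j).1) ^ 2 :=
    pow_lt_pow_left₀ hcon (by omega) (by norm_num)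
  nlinarith

theorem lin_up {c M D : ℤ} (h1 : 141420 * D ≤ 100000 * M) (h2 : 100000 * M ≤ 141422 * D) :
    100000 * (c * M) ≤ max (141422 * c) (141420 * c) * D := by
  rcases le_or_gt 0 c with hc | hc
  · have h3 : max (141422 * c) (141420 * c) = 141422 * c := max_eq_left (by omega)
    rw [h3]
    have := mul_le_mul_of_nonneg_left h2 hc
    linarith
  · have h3 : max (141422 * c) (141420 * c) = 141420 * c := max_eq_right (by omega)
    rw [h3]
    have := mul_le_mul_of_nonneg_left h1 (by omega : 0 ≤ -c)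
    linarith

theorem lin_low {c M D : ℤ} (h1 : 141420 * D ≤ 100000 * M) (h2 : 100000 * M ≤ 141422 * D) :
    min (141422 * c) (141420 * c) * D ≤ 100000 * (c * M) := by
  rcases le_or_gt 0 c with hc | hc
  · have h3 : min (141422 * c) (141420 * c) = 141420 * c := min_eq_right (by omega)
    rw [h3]
    have := mul_le_mul_of_nonneg_left h1 hc
    linarith
  · have h3 : min (141422 * c) (141420 * c) = 141422 * c := min_eq_left (by omega)
    rw [h3]
    have := mul_le_mul_of_nonneg_left h2 (by omega : 0 ≤ -c)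
    linarith

/-- The numerical condition for a family. -/
def Num (x0 y0 e R : ℤ) : Prop :=
  0 < e ∧ (x0 ^ 2 - 2 * y0 ^ 2 = e ∨ x0 ^ 2 - 2 * y0 ^ 2 = -e) ∧ 0 ≤ R ∧
  0 < 200000 * e2 x0 y0 + min (141422 * (-e1 x0 y0)) (141420 * (-e1 x0 y0)) ∧
  100000 * R <
    (200000 * e2 x0 y0 + min (141422 * e1 x0 y0) (141420 * e1 x0 y0)) * 985 ∧
  0 < 200000 * e2 x0 y0 + min (141422 * e1 x0 y0) (141420 * e1 x0 y0) ∧
  100000 * (|e1 x0 y0 ^ 2 - 2 * e ^ 2| + e * R) <
    (400000 * e ^ 2 -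
      R * (200000 * e2 x0 y0 + max (141422 * (-e1 x0 y0)) (141420 * (-e1 x0 y0))) -
      e * (200000 * e2 x0 y0 + max (141422 * e1 x0 y0) (141420 * e1 x0 y0))) * 985 ∧
  0 ≤ 400000 * e ^ 2 -
      R * (200000 * e2 x0 y0 + max (141422 * (-e1 x0 y0)) (141420 * (-e1 x0 y0))) -
      e * (200000 * e2 x0 y0 + max (141422 * e1 x0 y0) (141420 * e1 x0 y0))

theorem famU {x0 y0 e R : ℤ} (hnum : Num x0 y0 e R) {j : ℕ} (hj : 4 ≤ j) {b : ℕ}
    (hb : (sMD j).2 = 2 * (b : ℤ) + 1)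
    (h : ∃ ρ : ℤ, |ρ| ≤ R ∧
      2 * e ^ 2 ∣ e1 x0 y0 * (sMD j).1 + 2 * e2 x0 y0 * (sMD j).2 - ρ) :
    ∃ r s : ℕ, 2 * b ^ 2 < r ∧ r < s ∧ s < 2 * (b + 1) ^ 2 ∧ IsSquare (2 * b ^ 2 * r * s) := by
  obtain ⟨he, hN, hR, hlX, hlU, hlU', hmain, hcoef⟩ := hnum
  obtain ⟨ρ, hρ, k, hk⟩ := h
  have h1 := sMD_low j hj
  have h2 := sMD_up j
  have hD := sMD_big j hj
  obtain ⟨M, hM0⟩ : ∃ M, M = (sMD j).1 := ⟨_, rfl⟩
  obtain ⟨D, hD0⟩ : ∃ D, D = (sMD j).2 := ⟨_, rfl⟩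
  have u1 := lin_up (c := e1 x0 y0) h1 h2
  have u2 := lin_up (c := -e1 x0 y0) h1 h2
  have l1 := lin_low (c := e1 x0 y0) h1 h2
  have l2 := lin_low (c := -e1 x0 y0) h1 h2
  rw [← hM0, ← hD0] at hk u1 u2 l1 l2
  rw [← hD0] at hD
  obtain ⟨α, hα⟩ : ∃ α, α = e1 x0 y0 := ⟨_, rfl⟩
  obtain ⟨β, hβ⟩ : ∃ β, β = e2 x0 y0 := ⟨_, rfl⟩
  rw [← hα, ← hβ] at hlX hlU hlU' hmain hcoef
  rw [← hα, ← hβ] at hk
  rw [← hα] at u1 u2 l1 l2
  obtain ⟨mU, hmU⟩ : ∃ mU, mU = max (141422 * α) (141420 * α) := ⟨_, rfl⟩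
  obtain ⟨mX, hmX⟩ : ∃ mX, mX = max (141422 * (-α)) (141420 * (-α)) := ⟨_, rfl⟩
  obtain ⟨nU, hnU⟩ : ∃ nU, nU = min (141422 * α) (141420 * α) := ⟨_, rfl⟩
  obtain ⟨nX, hnX⟩ : ∃ nX, nX = min (141422 * (-α)) (141420 * (-α)) := ⟨_, rfl⟩
  rw [← hmU] at hmain hcoef u1
  rw [← hmX] at hmain hcoef u2
  rw [← hnU] at hlU hlU' l1
  rw [← hnX] at hlX l2
  have hρ' := abs_le.1 hρ
  -- positivity of `X` and `U`
  have hX : 0 < 2 * β * D - α * M := by
    have h3 := mul_pos hlX (by omega : 0 < D)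
    have h4 : 100000 * (-α * M) = -(100000 * (α * M)) := by ring
    rw [h4] at l2
    have h5 : (200000 * β + nX) * D = 200000 * (β * D) + nX * D := by ring
    have h6 : 2 * β * D - α * M = 2 * (β * D) - α * M := by ring
    rw [h6]
    linarith
  have hUR : R < α * M + 2 * β * D := by
    have h3 := mul_le_mul_of_nonneg_left hD hlU'.le
    have h5 : (200000 * β + nU) * D = 200000 * (β * D) + nU * D := by ring
    have h6 : α * M + 2 * β * D = α * M + 2 * (β * D) := by ring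
    rw [h6]
    linarith
  have hkpos : 0 < k := by
    have h3 : 0 < 2 * e ^ 2 * k := by
      rw [← hk]
      linarith
    have h4 : 0 < 2 * e ^ 2 := by positivity
    exact (pos_iff_pos_of_mul_pos h3).1 h4
  apply two_ints' hkpos
  apply fam j b x0 y0 e ρ k hb he hN hkpos
  · rw [← hα, ← hβ, ← hM0, ← hD0]
    exact hk.symm
  · rw [← hα, ← hβ, ← hM0, ← hD0]
    have a1 : |α ^ 2 - 2 * e ^ 2 - ρ * (2 * β * D - α * M)| ≤
        |α ^ 2 - 2 * e ^ 2| + |ρ * (2 * β * D - α * M)| := abs_sub _ _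
    have a2 : |ρ * (2 * β * D - α * M)| ≤ R * (2 * β * D - α * M) := by
      rw [abs_mul, abs_of_pos hX]
      exact mul_le_mul_of_nonneg_right hρ hX.le
    have a3 : e * (α * M + 2 * β * D - ρ) ≤ e * (α * M + 2 * β * D) + e * R := by
      have := mul_le_mul_of_nonneg_left hρ'.1 he.le
      linarith
    have b1 : 100000 * (2 * β * D - α * M) ≤ (200000 * β + mX) * D := by
      have h4 : 100000 * (-α * M) = -(100000 * (α * M)) := by ring
      rw [h4] at u2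
      linarith
    have b2 : 100000 * (α * M + 2 * β * D) ≤ (200000 * β + mU) * D := by linarith
    have b3 := mul_le_mul_of_nonneg_left b1 hR
    have b4 := mul_le_mul_of_nonneg_left b2 he.le
    have b5 := mul_le_mul_of_nonneg_left hD hcoef
    linarith

end Pool.Agent.W459.Sq
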