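import Pool.Agent.W459.Sq.Chain

/-!
# Two integers between `a b ^ 2` and `a (b + 1) ^ 2`
-/

set_option autoImplicit false

namespace Pool.Agent.W459.Sq

theorem start {p : ℕ} (hp : ¬ IsSquare p) (hp2 : 2 ≤ p) {D : ℤ} (hD : 1 < D) :
    Good p D ∨ ((p : ℤ) = 2 ∧ ∃ M : ℤ, M ^ 2 = 2 * D ^ 2 - 1) := by
  obtain ⟨f, hf⟩ : ∃ f, f = Nat.sqrt p := ⟨_, rfl⟩
  have h1 : f * f ≤ p := by rw [hf]; exact Nat.sqrt_le p
  have h2 : p < (f + 1) * (f + 1) := by rw [hf]; exact Nat.lt_succ_sqrt p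
  have h3 : f * f ≠ p := fun h => hp ⟨f, h.symm⟩
  have h4 : f * f < p := lt_of_le_of_ne h1 h3
  have h5 : 1 ≤ f := by
    by_contra hcon
    have : f = 0 := by omega
    rw [this] at h2
    omega
  have h4' : (f : ℤ) ^ 2 < p := by
    rw [sq]
    exact_mod_cast h4
  have h2' : (p : ℤ) < ((f : ℤ) + 1) ^ 2 := by
    rw [sq]
    exact_mod_cast h2
  have h5' : (1 : ℤ) ≤ f := by exact_mod_cast h5
  refine chain h4' h2' (D - 1).toNat D 1 0 f 1 1 1 ((p : ℤ) - (f : ℤ) ^ 2) f ?_ ?_ ?_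
  · constructor
    · left; rfl
    · ring
    · ring
    · ring
    · ring
    · norm_num
    · linarith
    · exact h5'
    · exact le_rfl
    · linarith
    · linarith
    · exact h5'
    · norm_num
    · norm_num
    · norm_num
  · linarith
  · rw [Int.toNat_of_nonneg (by linarith)]
    linarith

theorem two_ints {p b : ℕ} (hp2 : 2 ≤ p) (h : Good p (2 * (b : ℤ) + 1)) :
    ∃ r s : ℕ, p * b ^ 2 < r ∧ r < s ∧ s < p * (b + 1) ^ 2 ∧ IsSquare (p * b ^ 2 * r * s) := by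
  obtain ⟨x, y, a, hx, hy, ha, he, hG⟩ := h
  obtain ⟨k, hk, h1, h2, h3, h4⟩ := window (by omega : (0 : ℤ) < p) hx hy ha he hG
  have hne : x ^ 2 ≠ (p : ℤ) * y ^ 2 := by
    intro h
    rcases he with he | he <;> · rw [h] at he; omega
  lift x to ℕ using hx.le
  lift y to ℕ using hy.le
  lift k to ℕ using hk.le
  have h1' : p * b ^ 2 < k * x ^ 2 := by exact_mod_cast h1
  have h2' : k * x ^ 2 < p * (b + 1) ^ 2 := by exact_mod_cast h2
  have h3' : p * b ^ 2 < k * (p * y ^ 2) := by exact_mod_cast h3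
  have h4' : k * (p * y ^ 2) < p * (b + 1) ^ 2 := by exact_mod_cast h4
  have hk' : 0 < k := by exact_mod_cast hk
  have hne' : k * x ^ 2 ≠ k * (p * y ^ 2) := by
    intro h
    apply hne
    have := Nat.eq_of_mul_eq_mul_left hk' h
    exact_mod_cast this
  rcases lt_or_gt_of_ne hne' with hlt | hlt
  · exact ⟨k * x ^ 2, k * (p * y ^ 2), h1', hlt, h4', p * b * k * x * y, by ring⟩
  · exact ⟨k * (p * y ^ 2), k * x ^ 2, h3', hlt, h2', p * b * k * x * y, by ring⟩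

theorem squarefree_sq {a t : ℕ} (ha : Squarefree a) (ha0 : a ≠ 0) (h : IsSquare (a * t)) :
    ∃ c, t = a * c ^ 2 := by
  obtain ⟨z, hz⟩ := h
  have h1 : a ∣ z ^ 2 := ⟨t, by rw [sq, ← hz]⟩
  have h2 : a ∣ z := (ha.dvd_pow_iff_dvd (by norm_num)).1 h1
  obtain ⟨c, rfl⟩ := h2
  refine ⟨c, ?_⟩
  have h3 : a * t = a * (a * c ^ 2) := by rw [hz]; ring
  exact Nat.eq_of_mul_eq_mul_left (Nat.pos_of_ne_zero ha0) h3

/-- Every `n` which is not a square is good, unless `n = 2 b ^ 2` where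
`2 (2 b + 1) ^ 2 - 1` is a square. -/
theorem main (n : ℕ) (hn : ¬ IsSquare n) (t : ℕ) (hnt : n < t) (ht : IsSquare (n * t))
    (hex : ¬ ∃ b M : ℕ, n = 2 * b ^ 2 ∧ M ^ 2 + 1 = 2 * (2 * b + 1) ^ 2) :
    ∃ r s : ℕ, n < r ∧ r < s ∧ s < t ∧ IsSquare (n * r * s) := by
  obtain ⟨a, b, hab, ha⟩ := Nat.sq_mul_squarefree n
  have hn0 : n ≠ 0 := by
    rintro rfl
    exact hn ⟨0, rfl⟩
  have hb0 : b ≠ 0 := by
    rintro rfl
    apply hn0
    rw [← hab]
    ring
  have ha0 : a ≠ 0 := by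
    rintro rfl
    apply hn0
    rw [← hab]
    ring
  have ha1 : ¬ IsSquare a := by
    rintro ⟨c, rfl⟩
    apply hn
    exact ⟨b * c, by rw [← hab]; ring⟩
  have ha2 : 2 ≤ a := by
    have : a ≠ 1 := by
      rintro rfl
      exact ha1 ⟨1, rfl⟩
    omega
  -- the size of `t`
  have hat : IsSquare (a * t) := by
    obtain ⟨z, hz⟩ := ht
    have h1 : b ^ 2 ∣ z ^ 2 := ⟨a * t, by rw [sq z, ← hz, ← hab]; ring⟩
    have h2 : b ∣ z := (Nat.pow_dvd_pow_iff (by norm_num)).1 h1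
    obtain ⟨c, rfl⟩ := h2
    refine ⟨c, ?_⟩
    have h3 : b ^ 2 * (a * t) = b ^ 2 * (c * c) := by
      have : b ^ 2 * (a * t) = n * t := by rw [← hab]; ring
      rw [this, hz]
      ring
    exact Nat.eq_of_mul_eq_mul_left (by positivity) h3
  obtain ⟨c, hc⟩ := squarefree_sq ha ha0 hat
  have hbc : b < c := by
    by_contra hcon
    push Not at hcon
    have : t ≤ n := by
      rw [hc, ← hab]
      have := Nat.pow_le_pow_left hcon 2
      nlinarith
    omega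
  have htb : a * (b + 1) ^ 2 ≤ t := by
    rw [hc]
    exact Nat.mul_le_mul_left a (Nat.pow_le_pow_left hbc 2)
  have hgood : Good a (2 * (b : ℤ) + 1) := by
    rcases start ha1 ha2 (D := 2 * (b : ℤ) + 1) (by omega) with h | ⟨h2, M, hM⟩
    · exact h
    · exfalso
      apply hex
      have ha2' : a = 2 := by exact_mod_cast h2
      refine ⟨b, M.natAbs, ?_, ?_⟩
      · rw [← hab, ha2']
        ring
      · have : ((M.natAbs : ℤ)) ^ 2 + 1 = 2 * (2 * (b : ℤ) + 1) ^ 2 := by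
          rw [Int.natAbs_sq]
          linarith
        exact_mod_cast this
  obtain ⟨r, s, h1, h2, h3, h4⟩ := two_ints ha2 hgood
  have hab' : a * b ^ 2 = n := by rw [← hab]; ring
  rw [hab'] at h1 h4
  exact ⟨r, s, h1, h2, lt_of_lt_of_le h3 htb, h4⟩

end Pool.Agent.W459.Sq
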